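import Pool.Agent.Lib.MP_834949_an.N54.Tree

namespace Pool.Agent.Results.MP_834949_an.LowerBound2

open MeasureTheory

/-- The autoconvolution constant: the supremum of the real `C` such that
`C * (∫_{-1/4}^{1/4} f)^2 ≤ sup_{|t| ≤ 1/2} (f * f)(t)` for all nonnegative square-integrable `f`. -/
noncomputable def C1a : ℝ :=
  sSup {C : ℝ | ∀ f : ℝ → ℝ, (∀ x, 0 ≤ f x) → MemLp f 2 volume →
    C * (∫ x in (-1 / 4 : ℝ)..(1 / 4), f x) ^ 2 ≤
      ⨆ t : Set.Icc (-1 / 2 : ℝ) (1 / 2), ∫ x, f x * f (t - x)}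

theorem result : (27 / 19 : ℝ) ≤ C1a :=
  le_csSup ⟨2, fun _ hC => Pool.Agent.Lib.MP_834949_an.upper hC⟩
    Pool.Agent.Lib.MP_834949_an.Ck.N54.lower_bound

end Pool.Agent.Results.MP_834949_an.LowerBound2
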