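import Pool.Agent.Lib.MP_834949_an.Ush2

namespace Pool.Agent.Results.MP_834949_an.TwoPieces

open MeasureTheory

/-- `f` is nondecreasing on `s` if `up` is true, and nonincreasing on `s` if `up` is false. -/
def IsMonoOn (up : Bool) (f : ℝ → ℝ) (s : Set ℝ) : Prop :=
  if up = true then MonotoneOn f s else AntitoneOn f s

/-- `f` is monotone in the direction `d₁` to the left of some point `c` of `[-1/4, 1/4]` and in
the direction `d₂` to the right of it. -/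
def IsTwoPiece (d₁ d₂ : Bool) (f : ℝ → ℝ) : Prop :=
  ∃ c ∈ Set.Icc (-1 / 4 : ℝ) (1 / 4),
    IsMonoOn d₁ f (Set.Ioo (-1 / 4) c) ∧ IsMonoOn d₂ f (Set.Ioo c (1 / 4))

open Pool.Agent.Lib.MP_834949_an.Uni in
/-- For functions with two monotone pieces, the best constant in the autoconvolution inequality
is `π / 2` exactly when the two directions are opposite. -/
theorem result (d₁ d₂ : Bool) : IsGreatest {C : ℝ | ∀ f : ℝ → ℝ, (∀ x, 0 ≤ f x) →
    MemLp f 2 volume → IsTwoPiece d₁ d₂ f → C * (∫ x in (-1 / 4 : ℝ)..(1 / 4), f x) ^ 2 ≤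
      ⨆ t : Set.Icc (-1 / 2 : ℝ) (1 / 2), ∫ x, f x * f (t - x)} (Real.pi / 2) ↔ d₁ ≠ d₂ := by
  cases d₁ <;> cases d₂
  · obtain ⟨f, h0, hf, h1, h2, h3⟩ := down_down
    exact iff_of_false (fun h => h3.not_ge
      (h.1 f h0 hf ⟨0, ⟨by norm_num, by norm_num⟩, h1, h2⟩)) (by simp)
  · exact iff_of_true ⟨fun _ h0 hf ⟨_, hc, ha, hm⟩ => lowerU_sup h0 hf hc ha hm,
      fun _ hC => upper_uni fun f h0 hf ha =>
        hC f h0 hf ⟨1 / 4, ⟨by norm_num, le_rfl⟩, ha, by simp [IsMonoOn, MonotoneOn]⟩⟩ (by simp)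
  · exact iff_of_true ⟨fun _ h0 hf ⟨_, hc, hm, ha⟩ => lower_sup h0 hf hc hm ha,
      fun _ hC => upper_uni fun f h0 hf ha =>
        hC f h0 hf ⟨-1 / 4, ⟨le_rfl, by norm_num⟩, by simp [IsMonoOn, MonotoneOn], ha⟩⟩ (by simp)
  · obtain ⟨f, h0, hf, h1, h2, h3⟩ := up_up
    exact iff_of_false (fun h => h3.not_ge
      (h.1 f h0 hf ⟨0, ⟨by norm_num, by norm_num⟩, h1, h2⟩)) (by simp)

end Pool.Agent.Results.MP_834949_an.TwoPieces
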