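import Pool.Agent.Lib.MP_834949_an.UpData

namespace Pool.Agent.Results.MP_834949_an.UpperBound

open MeasureTheory

/-- Every real `C` that is admissible in the autoconvolution inequality is at most `1.502846`. -/
theorem result (C : ℝ) (hC : ∀ f : ℝ → ℝ, (∀ x, 0 ≤ f x) → MemLp f 2 volume →
    C * (∫ x in (-1 / 4 : ℝ)..(1 / 4), f x) ^ 2 ≤
      ⨆ t : Set.Icc (-1 / 2 : ℝ) (1 / 2), ∫ x, f x * f (t - x)) :
    C ≤ 1502846 / 1000000 := by
  have h := Pool.Agent.Lib.MP_834949_an.Up.upper_ok Pool.Agent.Lib.MP_834949_an.Up.ok_big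
    (by norm_num) hC
  norm_num at h
  linarith

end Pool.Agent.Results.MP_834949_an.UpperBound
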